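import Pool.Agent.Helper47.FLG.Fun
import Pool.Agent.Helper60.RFn.VLBn

/-!
Packet FLG-VLT (MP_c98eff_gt): lower volume bound near the last time.
-/

set_option autoImplicit false

open MeasureTheory Set Matrix

namespace Pool.Agent.Helper15.FLG

open Pool.Agent.Helper47.RFn Pool.Agent.Helper73.RFn Pool.Agent.Helper64.RFn
open Pool.Agent.Helper60.RFn.VLBn

theorem p_VLT (ffg : FFGs) (frc : FRCn) (veq : VEQn) (cmp : CMPn) (dic : DicStmt) :
    Pool.Agent.Helper47.FLG.VltStmt := by
  intro n C σ hn hC hσ hσ1 T τ A θ hF hL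
  obtain ⟨C', hC', hveq⟩ := veq n C σ hn hC hσ hσ1
  have hn' : (4 : ℝ) ≤ n := by exact_mod_cast hn
  obtain ⟨hτ0, hτT⟩ := hL.pos
  obtain ⟨m, hm⟩ : ∃ m, m = 2 * ((n : ℝ) - 1) := ⟨_, rfl⟩
  rw [← hm]
  have hm1 : 1 ≤ m := by rw [hm]; linarith
  have hm0 : 0 < m := by linarith
  have hC0 : 0 < C := by linarith
  have hC'0 : 0 < C' := by linarith
  have hI : ∀ t, 0 ≤ t → t < T → t ∈ Set.Ico (0:ℝ) T := fun t h h' => ⟨h, h'⟩
  have hfr : ∀ t, 0 ≤ t → t < T → Frm (A t) (θ t) := fun t h h' => frm_of hF (hI t h h')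
  have hcof : ∀ t, 0 ≤ t → t < T → Cofr (gOf (θ t)) (A t) (θ t) := fun t h h' =>
    frc n _ _ (hfr t h h')
  have hD : 0 < T - τ := by linarith
  -- the metric at time `τ`
  obtain ⟨c1, C1, hc1, hC1, hb⟩ := cmp n _ (hcof τ hτ0.le hτT).met
  have hp : 0 < σ / 2 := by positivity
  obtain ⟨η, hη, hffg⟩ := ffg n (c1 / (m * C' * (T - τ))) (C' * C1 / (m * (T - τ))) (by omega)
    (by positivity) (by positivity)
  -- choice of the time
  obtain ⟨t1, hτt1, ht1T, hz1⟩ : ∃ t, τ ≤ t ∧ t < T ∧
      ((m + 4) * C) * (2 * (T - t) / τ) ^ (σ / 2) ≤ η := by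
    have hB : 0 < (m + 4) * C := by positivity
    have hη' : 0 < η / ((m + 4) * C) := by positivity
    have h1 : 0 < min (2 * (T - τ) / τ) ((η / ((m + 4) * C)) ^ (σ / 2)⁻¹) := by
      apply lt_min
      · positivity
      · exact Real.rpow_pos_of_pos hη' _
    obtain ⟨ζ, hζ⟩ : ∃ ζ, ζ = min (2 * (T - τ) / τ) ((η / ((m + 4) * C)) ^ (σ / 2)⁻¹) := ⟨_, rfl⟩
    rw [← hζ] at h1
    have h2 : ζ ≤ 2 * (T - τ) / τ := by rw [hζ]; exact min_le_left _ _
    have h3 : ζ ≤ (η / ((m + 4) * C)) ^ (σ / 2)⁻¹ := by rw [hζ]; exact min_le_right _ _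
    refine ⟨T - ζ * τ / 2, ?_, ?_, ?_⟩
    · rw [le_div_iff₀ hτ0] at h2
      linarith
    · have : 0 < ζ * τ / 2 := by positivity
      linarith
    · have h4 : 2 * (T - (T - ζ * τ / 2)) / τ = ζ := by
        field_simp
        ring
      rw [h4]
      have h5 : ζ ^ (σ / 2) ≤ η / ((m + 4) * C) := by
        calc ζ ^ (σ / 2) ≤ ((η / ((m + 4) * C)) ^ (σ / 2)⁻¹) ^ (σ / 2) :=
              Real.rpow_le_rpow h1.le h3 hp.le
          _ = η / ((m + 4) * C) := Real.rpow_inv_rpow hη'.le hp.ne'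
      calc ((m + 4) * C) * ζ ^ (σ / 2) ≤ ((m + 4) * C) * (η / ((m + 4) * C)) :=
            mul_le_mul_of_nonneg_left h5 hB.le
        _ = η := by field_simp
  refine ⟨t1, hτt1, ht1T, fun t ht1t htT => ?_⟩
  have hτt : τ ≤ t := hτt1.trans ht1t
  have hz : ((m + 4) * C) * (2 * (T - t) / τ) ^ (σ / 2) ≤ η := by
    refine le_trans (mul_le_mul_of_nonneg_left ?_ (by positivity)) hz1
    refine Real.rpow_le_rpow ?_ ?_ hp.le
    · have : 0 < T - t := by linarith
      positivity
    · exact div_le_div_of_nonneg_right (by linarith) hτ0.le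
  have ht0 : 0 ≤ t := hτ0.le.trans hτt
  have hTt : 0 < T - t := by linarith
  have hft := hfr t ht0 htT
  have hV := hveq T τ A θ hF hL t hτt htT
  have hs0 : 0 < m * (T - t) := by positivity
  have hkey := hffg (gOf (θ t)) (A t) (θ t) (m * (T - t)) (hcof t ht0 htT) hs0
    (by
      intro x hx v hv
      have hx0 : x ≠ 0 := by
        intro h; rw [h, norm_zero] at hx; exact zero_ne_one hx
      obtain ⟨h1, h2⟩ := (hV x hx0).2 v hv
      obtain ⟨h3, h4⟩ := hb x hx v
      constructor
      · have h5 : c1 * ∑ i, v i ^ 2 / (T - τ) ≤ C' * (ip (gOf (θ t)) x v v / (T - t)) := by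
          refine le_trans ?_ h1
          rw [← Finset.sum_div, ← mul_div_assoc]
          exact div_le_div_of_nonneg_right h3 hD.le
        rw [← Finset.sum_div] at h5
        have h6 : c1 / (m * C' * (T - τ)) * (m * (T - t)) * ∑ i, v i ^ 2 =
            (T - t) / C' * (c1 * ((∑ i, v i ^ 2) / (T - τ))) := by
          field_simp
        rw [h6]
        calc (T - t) / C' * (c1 * ((∑ i, v i ^ 2) / (T - τ)))
            ≤ (T - t) / C' * (C' * (ip (gOf (θ t)) x v v / (T - t))) :=
              mul_le_mul_of_nonneg_left h5 (by positivity)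
          _ = ip (gOf (θ t)) x v v := by field_simp
      · have h5 : ip (gOf (θ t)) x v v / (T - t) ≤ C' * (C1 * (∑ i, v i ^ 2) / (T - τ)) := by
          refine h2.trans (mul_le_mul_of_nonneg_left ?_ hC'0.le)
          exact div_le_div_of_nonneg_right h4 hD.le
        rw [div_le_iff₀ hTt] at h5
        refine h5.trans (le_of_eq ?_)
        field_simp)
    (by
      intro x hx a b c d
      have hx0 : x ≠ 0 := by
        intro h; rw [h, norm_zero] at hx; exact zero_ne_one hx
      rw [dic n (A t) (θ t) hft x hx a b c d]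
      obtain ⟨h1, h2⟩ := hL.aft t hτt htT x hx0
      have h2' := h2 a b c d
      obtain ⟨Z, hZ⟩ : ∃ Z, Z = (2 * (T - t) / τ) ^ (σ / 2) := ⟨_, rfl⟩
      rw [← hZ] at h1 h2' hz
      have hZ0 : 0 ≤ Z := by
        rw [hZ]
        apply Real.rpow_nonneg
        positivity
      have hE : Kf (A t) (θ t) a b c d x = - Ef (A t) (θ t) a b c d x -
          1 / ((n : ℝ) - 1) * (lamf (A t) (θ t) x *
            (Pf (A t) x a c * Pf (A t) x b d - Pf (A t) x a d * Pf (A t) x b c)) := by
        rw [← pff_eq _ hx, ← pff_eq _ hx, ← pff_eq _ hx, ← pff_eq _ hx]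
        simp only [Ef, Rf]
        ring
      rw [hE]
      generalize lamf (A t) (θ t) x = L at h1
      generalize Ef (A t) (θ t) a b c d x = E at h2'
      have q1 := pf_le hft hx b c
      have q2 := pf_le hft hx a d
      have q3 := pf_le hft hx a c
      have q4 := pf_le hft hx b d
      generalize Pf (A t) x b c = p1 at q1
      generalize Pf (A t) x a d = p2 at q2
      generalize Pf (A t) x a c = p3 at q3
      generalize Pf (A t) x b d = p4 at q4
      have hn1 : (n : ℝ) - 1 ≠ 0 := by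
        have : (0:ℝ) < (n : ℝ) - 1 := by linarith
        exact this.ne'
      have e1 : m * (T - t) * (-E - 1 / ((n : ℝ) - 1) * (L * (p3 * p4 - p2 * p1))) -
          (p1 * p2 - p3 * p4) = -(m * ((T - t) * E)) +
            2 * ((T - t) * (L - 1 / (2 * (T - t)))) * (p1 * p2 - p3 * p4) := by
        rw [hm]
        field_simp
        ring
      rw [e1]
      have b1 : |(T - t) * E| ≤ C * Z := by
        rw [abs_mul, abs_of_pos hTt]
        rw [le_div_iff₀ hTt] at h2'
        linarith
      have b2 : |(T - t) * (L - 1 / (2 * (T - t)))| ≤ C * Z := by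
        rw [abs_mul, abs_of_pos hTt]
        rw [le_div_iff₀ hTt] at h1
        linarith
      have b3 : |p1 * p2 - p3 * p4| ≤ 2 := by
        have h12 : |p1 * p2| ≤ 1 := by
          rw [abs_mul]; exact mul_le_one₀ q1 (abs_nonneg _) q2
        have h34 : |p3 * p4| ≤ 1 := by
          rw [abs_mul]; exact mul_le_one₀ q3 (abs_nonneg _) q4
        have := abs_sub (p1 * p2) (p3 * p4)
        linarith
      have hCZ : 0 ≤ C * Z := by positivity
      calc |-(m * ((T - t) * E)) + 2 * ((T - t) * (L - 1 / (2 * (T - t)))) * (p1 * p2 - p3 * p4)|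
          ≤ |-(m * ((T - t) * E))| +
            |2 * ((T - t) * (L - 1 / (2 * (T - t)))) * (p1 * p2 - p3 * p4)| := abs_add_le _ _
        _ = m * |(T - t) * E| +
            2 * |(T - t) * (L - 1 / (2 * (T - t)))| * |p1 * p2 - p3 * p4| := by
            rw [abs_neg, abs_mul m, abs_of_pos hm0, abs_mul (2 * ((T - t) * (L - 1 / (2 * (T - t))))),
              abs_mul 2 ((T - t) * (L - 1 / (2 * (T - t)))), abs_two]
        _ ≤ m * (C * Z) + 2 * (C * Z) * 2 := by
            have := mul_le_mul (mul_le_mul_of_nonneg_left b2 (by norm_num : (0:ℝ) ≤ 2)) b3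
              (abs_nonneg _) (by positivity)
            have := mul_le_mul_of_nonneg_left b1 hm0.le
            linarith
        _ = (m + 4) * C * Z := by ring
        _ ≤ η := hz)
  exact hkey

end Pool.Agent.Helper15.FLG
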